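import Pool.Agent.W873.RS.Stm

set_option autoImplicit false

open MeasureTheory ProbabilityTheory Polynomial Filter Topology
open scoped ENNReal

namespace Pool.Agent.W695.RS.DET3
open Pool.Agent.W873.RS

/-- crossing set of `g` in the interval `(p, q)` -/
def cs (g : ℝ → ℝ) (p q ε : ℝ) : Set ℝ := {x | x ∈ Set.Ioo p q ∧ sc (g x) (g (x + ε))}

lemma meas_cs (g : ℝ → ℝ) (hg : Continuous g) (p q ε : ℝ) : MeasurableSet (cs g p q ε) := by
  have h1 : MeasurableSet {x | g x < 0} := (isOpen_lt hg continuous_const).measurableSet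
  have h2 : MeasurableSet {x | g (x + ε) < 0} :=
    (isOpen_lt (hg.comp (continuous_id.add continuous_const)) continuous_const).measurableSet
  have : cs g p q ε = Set.Ioo p q ∩ (({x | g x < 0} \ {x | g (x + ε) < 0}) ∪
      ({x | g (x + ε) < 0} \ {x | g x < 0})) := by
    ext x
    simp only [cs, sc, Set.mem_ofPred_eq, Set.mem_inter_iff, Set.mem_union, Set.mem_sdiff]
    tauto
  rw [this]
  exact measurableSet_Ioo.inter ((h1.diff h2).union (h2.diff h1))

lemma cs_split (g : ℝ → ℝ) (hg : Continuous g) (p r q ε : ℝ) (h1 : p < r) (h2 : r < q) :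
    volume (cs g p r ε) + volume (cs g r q ε) ≤ volume (cs g p q ε) := by
  have hd : Disjoint (cs g p r ε) (cs g r q ε) := by
    rw [Set.disjoint_left]
    rintro x ⟨hx, -⟩ ⟨hx', -⟩
    exact absurd hx.2 (not_lt.2 hx'.1.le)
  rw [← measure_union hd (meas_cs g hg r q ε)]
  apply measure_mono
  rintro x (⟨hx, h⟩ | ⟨hx, h⟩)
  · exact ⟨⟨hx.1, hx.2.trans h2⟩, h⟩
  · exact ⟨⟨h1.trans hx.1, hx.2⟩, h⟩

lemma per_root (hD : DET2) (F : ℝ → ℝ) (hF : Continuous F) (r η δ : ℝ) (hη : 0 < η)
    (hδ : 0 < δ) (hr : F r = 0) (h1 : δ < |F (r - η)|) (h2 : δ < |F (r + η)|) :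
    ∀ᶠ ε in 𝓝[>] (0 : ℝ), ENNReal.ofReal ε * 2 ≤
      volume (cs (fun x => F x - δ) (r - η) (r + η) ε) +
      volume (cs (fun x => F x + δ) (r - η) (r + η) ε) := by
  have hm : Continuous (fun x => F x - δ) := hF.sub continuous_const
  have hp : Continuous (fun x => F x + δ) := hF.add continuous_const
  have hlt : r - η < r + η := by linarith
  have hl1 : r - η < r := by linarith
  have hl2 : r < r + η := by linarith
  rcases lt_abs.1 h1 with a | a <;> rcases lt_abs.1 h2 with b | b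
  · -- both positive
    have e1 := hD (fun x => F x - δ) (r - η) r hm hl1
      (mul_neg_of_pos_of_neg (by linarith) (by linarith))
    have e2 := hD (fun x => F x - δ) r (r + η) hm hl2
      (mul_neg_of_neg_of_pos (by linarith) (by linarith))
    filter_upwards [e1, e2] with ε k1 k2
    calc ENNReal.ofReal ε * 2 = ENNReal.ofReal ε + ENNReal.ofReal ε := mul_two _
      _ ≤ volume (cs (fun x => F x - δ) (r - η) r ε) +
          volume (cs (fun x => F x - δ) r (r + η) ε) := add_le_add k1 k2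
      _ ≤ volume (cs (fun x => F x - δ) (r - η) (r + η) ε) := cs_split _ hm _ _ _ _ hl1 hl2
      _ ≤ _ := le_self_add
  · have e1 := hD (fun x => F x - δ) (r - η) (r + η) hm hlt
      (mul_neg_of_pos_of_neg (by linarith) (by linarith))
    have e2 := hD (fun x => F x + δ) (r - η) (r + η) hp hlt
      (mul_neg_of_pos_of_neg (by linarith) (by linarith))
    filter_upwards [e1, e2] with ε k1 k2
    calc ENNReal.ofReal ε * 2 = ENNReal.ofReal ε + ENNReal.ofReal ε := mul_two _
      _ ≤ _ := add_le_add k1 k2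
  · have e1 := hD (fun x => F x - δ) (r - η) (r + η) hm hlt
      (mul_neg_of_neg_of_pos (by linarith) (by linarith))
    have e2 := hD (fun x => F x + δ) (r - η) (r + η) hp hlt
      (mul_neg_of_neg_of_pos (by linarith) (by linarith))
    filter_upwards [e1, e2] with ε k1 k2
    calc ENNReal.ofReal ε * 2 = ENNReal.ofReal ε + ENNReal.ofReal ε := mul_two _
      _ ≤ _ := add_le_add k1 k2
  · -- both negative
    have e1 := hD (fun x => F x + δ) (r - η) r hp hl1
      (mul_neg_of_neg_of_pos (by linarith) (by linarith))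
    have e2 := hD (fun x => F x + δ) r (r + η) hp hl2
      (mul_neg_of_pos_of_neg (by linarith) (by linarith))
    filter_upwards [e1, e2] with ε k1 k2
    calc ENNReal.ofReal ε * 2 = ENNReal.ofReal ε + ENNReal.ofReal ε := mul_two _
      _ ≤ volume (cs (fun x => F x + δ) (r - η) r ε) +
          volume (cs (fun x => F x + δ) r (r + η) ε) := add_le_add k1 k2
      _ ≤ volume (cs (fun x => F x + δ) (r - η) (r + η) ε) := cs_split _ hp _ _ _ _ hl1 hl2
      _ ≤ _ := le_add_self

/-- a positive separation for a finite set of reals -/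
lemma exists_sep (R Z : Finset ℝ) (hZ : ∀ r ∈ Z, 0 < r) :
    ∃ η : ℝ, 0 < η ∧ (∀ r ∈ Z, 0 < r - η) ∧ ∀ r ∈ R, ∀ r' ∈ R, r ≠ r' → 2 * η < |r - r'| := by
  have e1 : ∀ᶠ η in 𝓝[>] (0 : ℝ), ∀ r ∈ Z, 0 < r - η := by
    rw [Filter.eventually_all_finset]
    intro r hr
    have : ∀ᶠ η in 𝓝 (0 : ℝ), η < r := eventually_lt_nhds (hZ r hr)
    filter_upwards [nhdsWithin_le_nhds this] with η h
    linarith
  have e2 : ∀ᶠ η in 𝓝[>] (0 : ℝ), ∀ r ∈ R, ∀ r' ∈ R, r ≠ r' → 2 * η < |r - r'| := by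
    rw [Filter.eventually_all_finset]
    intro r _
    rw [Filter.eventually_all_finset]
    intro r' _
    by_cases h : r = r'
    · exact Filter.Eventually.of_forall fun η hne => absurd h hne
    · have hp : (0 : ℝ) < |r - r'| / 2 := by
        have := abs_pos.2 (sub_ne_zero.2 h)
        linarith
      have : ∀ᶠ η in 𝓝 (0 : ℝ), η < |r - r'| / 2 := eventually_lt_nhds hp
      filter_upwards [nhdsWithin_le_nhds this] with η h _
      linarith
  obtain ⟨η, ⟨h1, h2⟩, h3⟩ := ((e1.and e2).and self_mem_nhdsWithin).exists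
  exact ⟨η, h3, h1, h2⟩

lemma sum_le (g : ℝ → ℝ) (hg : Continuous g) (Z : Finset ℝ) (η ε : ℝ)
    (h0 : ∀ r ∈ Z, 0 < r - η) (hs : ∀ r ∈ Z, ∀ r' ∈ Z, r ≠ r' → 2 * η < |r - r'|) :
    ∑ r ∈ Z, volume (cs g (r - η) (r + η) ε) ≤ volume (chg g ε) := by
  rw [← measure_biUnion_finset]
  · apply measure_mono
    intro x hx
    simp only [Set.mem_iUnion] at hx
    obtain ⟨r, hr, hx, h⟩ := hx
    exact ⟨(h0 r hr).trans hx.1, h⟩
  · intro r hr r' hr' hne
    rw [Function.onFun, Set.disjoint_left]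
    rintro x ⟨hx, -⟩ ⟨hx', -⟩
    have := hs r hr r' hr' hne
    rcases lt_abs.1 this with h | h
    · linarith [hx.1, hx.2, hx'.1, hx'.2]
    · linarith [hx.1, hx.2, hx'.1, hx'.2]
  · intro r _
    exact meas_cs g hg _ _ _

theorem main (hD : Pool.Agent.W873.RS.DET2) : Pool.Agent.W873.RS.DET3 := by
  intro f hf
  set Z : Finset ℝ := f.roots.toFinset.filter (fun x => 0 < x) with hZdef
  have hZpos : ∀ r ∈ Z, 0 < r := fun r hr => (Finset.mem_filter.1 hr).2
  have hZR : ∀ r ∈ Z, r ∈ f.roots.toFinset := fun r hr => (Finset.mem_filter.1 hr).1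
  have hroot : ∀ r, r ∈ f.roots.toFinset ↔ f.eval r = 0 := by
    intro r
    rw [Multiset.mem_toFinset, mem_roots hf, IsRoot.def]
  obtain ⟨η, hη, hη1, hη2⟩ := exists_sep f.roots.toFinset Z hZpos
  have hne1 : ∀ r ∈ Z, f.eval (r - η) ≠ 0 := by
    intro r hr h0
    have := hη2 r (hZR r hr) (r - η) ((hroot _).2 h0) (by intro h; linarith)
    rw [show r - (r - η) = η by ring, abs_of_pos hη] at this
    linarith
  have hne2 : ∀ r ∈ Z, f.eval (r + η) ≠ 0 := by
    intro r hr h0
    have := hη2 r (hZR r hr) (r + η) ((hroot _).2 h0) (by intro h; linarith)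
    rw [show r - (r + η) = -η by ring, abs_neg, abs_of_pos hη] at this
    linarith
  have e1 : ∀ᶠ δ in 𝓝[>] (0 : ℝ), ∀ r ∈ Z, δ < |f.eval (r - η)| := by
    rw [Filter.eventually_all_finset]
    intro r hr
    exact nhdsWithin_le_nhds (eventually_lt_nhds (abs_pos.2 (hne1 r hr)))
  have e2 : ∀ᶠ δ in 𝓝[>] (0 : ℝ), ∀ r ∈ Z, δ < |f.eval (r + η)| := by
    rw [Filter.eventually_all_finset]
    intro r hr
    exact nhdsWithin_le_nhds (eventually_lt_nhds (abs_pos.2 (hne2 r hr)))
  filter_upwards [e1, e2, self_mem_nhdsWithin] with δ k1 k2 hδ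
  have hF : Continuous (fun x => f.eval x) := f.continuous
  have e3 : ∀ᶠ ε in 𝓝[>] (0 : ℝ), ∀ r ∈ Z, ENNReal.ofReal ε * 2 ≤
      volume (cs (fun x => f.eval x - δ) (r - η) (r + η) ε) +
      volume (cs (fun x => f.eval x + δ) (r - η) (r + η) ε) := by
    rw [Filter.eventually_all_finset]
    intro r hr
    exact per_root hD (fun x => f.eval x) hF r η δ hη hδ ((hroot r).1 (hZR r hr)) (k1 r hr) (k2 r hr)
  filter_upwards [e3] with ε k3
  have hs : ∀ r ∈ Z, ∀ r' ∈ Z, r ≠ r' → 2 * η < |r - r'| :=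
    fun r hr r' hr' hne => hη2 r (hZR r hr) r' (hZR r' hr') hne
  have s1 := sum_le (fun x => f.eval x - δ) (hF.sub continuous_const) Z η ε hη1 hs
  have s2 := sum_le (fun x => f.eval x + δ) (hF.add continuous_const) Z η ε hη1 hs
  have t1 : (fun x => (f - C δ).eval x) = fun x => f.eval x - δ := by
    funext x; simp
  have t2 : (fun x => (f + C δ).eval x) = fun x => f.eval x + δ := by
    funext x; simp
  rw [t1, t2]
  calc ENNReal.ofReal ε * (2 * (npos f : ℝ≥0∞))
      = ∑ r ∈ Z, ENNReal.ofReal ε * 2 := by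
        rw [Finset.sum_const, nsmul_eq_mul]
        unfold npos
        rw [← hZdef]
        ring
    _ ≤ ∑ r ∈ Z, (volume (cs (fun x => f.eval x - δ) (r - η) (r + η) ε) +
        volume (cs (fun x => f.eval x + δ) (r - η) (r + η) ε)) := Finset.sum_le_sum k3
    _ = _ := Finset.sum_add_distrib
    _ ≤ _ := add_le_add s1 s2

end Pool.Agent.W695.RS.DET3
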